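import Pool.Agent.J4H94.GP.Unique
import Pool.Agent.W677.Summand3
import Pool.Agent.TH84.HC.Cover

/-!
# Generalized permutohedra are covered by `2 ^ dim` translates of the relative interior
-/

set_option autoImplicit false

namespace Pool.Agent.J4H94.GP

open Finset

variable {V : Type*} [Fintype V] [DecidableEq V] {f : Finset V → ℝ}

theorem base_convex : Convex ℝ (basePolytope f) := by
  rintro x hx y hy a b ha hb hab
  have e : ∀ X : Finset V, ∑ i ∈ X, (a • x + b • y) i = a * ∑ i ∈ X, x i + b * ∑ i ∈ X, y i := by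
    intro X
    simp only [Pi.add_apply, Pi.smul_apply, smul_eq_mul, sum_add_distrib, mul_sum]
  refine ⟨?_, fun X => ?_⟩
  · rw [e, hx.1, hy.1, ← add_mul, hab, one_mul]
  · rw [e]
    have h1 := mul_le_mul_of_nonneg_left (hx.2 X) ha
    have h2 := mul_le_mul_of_nonneg_left (hy.2 X) hb
    calc a * ∑ i ∈ X, x i + b * ∑ i ∈ X, y i ≤ a * f X + b * f X := add_le_add h1 h2
      _ = f X := by rw [← add_mul, hab, one_mul]

theorem base_closed : IsClosed (basePolytope f) := by
  have : basePolytope f = {x : V → ℝ | ∑ i, x i = f univ} ∩ ⋂ X : Finset V, {x | ∑ i ∈ X, x i ≤ f X} := by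
    ext x
    simp [basePolytope]
  rw [this]
  refine IsClosed.inter (isClosed_eq (by fun_prop) continuous_const) ?_
  exact isClosed_iInter fun X => isClosed_le (by fun_prop) continuous_const

theorem base_compact : IsCompact (basePolytope f) := by
  refine IsCompact.of_isClosed_subset
    (isCompact_univ_pi (s := fun i => Set.Icc (f univ - f ({i} : Finset V)ᶜ) (f {i}))
      fun i => isCompact_Icc) base_closed ?_
  intro x hx i _
  have h1 := hx.2 {i}
  have h2 := hx.2 ({i} : Finset V)ᶜ
  have h3 := Finset.sum_add_sum_compl ({i} : Finset V) x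
  rw [sum_singleton] at h1 h3
  rw [hx.1] at h3
  exact ⟨by linarith, h1⟩

/-- the difference of two unit vectors -/
def ev (i j : V) : V → ℝ := Pi.single i 1 - Pi.single j 1

omit [Fintype V] in
theorem sum_ev (i j : V) (X : Finset V) :
    ∑ l ∈ X, ev i j l = (if i ∈ X then 1 else 0) - (if j ∈ X then 1 else 0) := by
  unfold ev
  simp only [Pi.sub_apply, sum_sub_distrib, Pi.single_apply, Finset.sum_ite_eq, Finset.sum_ite_eq']

/-- the vectors of sum zero -/
def sumZero (V : Type*) [Fintype V] : Submodule ℝ (V → ℝ) :=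
  LinearMap.ker (∑ i, LinearMap.proj i : (V → ℝ) →ₗ[ℝ] ℝ)

omit [DecidableEq V] in
theorem mem_sumZero {w : V → ℝ} : w ∈ sumZero V ↔ ∑ i, w i = 0 := by
  unfold sumZero
  rw [LinearMap.mem_ker]
  simp

theorem finrank_sumZero (r : V) : Module.finrank ℝ (sumZero V) + 1 = Fintype.card V := by
  unfold sumZero
  have h := LinearMap.finrank_range_add_finrank_ker (∑ i, LinearMap.proj i : (V → ℝ) →ₗ[ℝ] ℝ)
  rw [Module.finrank_pi] at h
  have hs : Function.Surjective (∑ i, LinearMap.proj i : (V → ℝ) →ₗ[ℝ] ℝ) := by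
    intro c
    refine ⟨Pi.single r c, ?_⟩
    simp
  rw [LinearMap.range_eq_top.2 hs, finrank_top, Module.finrank_self] at h
  omega

/-- a small step along a direction which is negative on the tight sets -/
theorem small_step {x u : V → ℝ} (hx : x ∈ basePolytope f)
    (hu : ∀ X, Tight f x X → X ≠ ∅ → X ≠ univ → ∑ i ∈ X, u i < 0) :
    ∃ t : ℝ, 0 < t ∧ ∀ X : Finset V, X ≠ ∅ → X ≠ univ → ∑ i ∈ X, (x + t • u) i < f X := by
  have h1 : ∀ X : Finset V, ∀ᶠ t in nhdsWithin (0 : ℝ) (Set.Ioi 0), X ≠ ∅ → X ≠ univ →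
      ∑ i ∈ X, (x + t • u) i < f X := by
    intro X
    by_cases h0 : X ≠ ∅ ∧ X ≠ univ
    · have e : ∀ t : ℝ, ∑ i ∈ X, (x + t • u) i = ∑ i ∈ X, x i + t * ∑ i ∈ X, u i := by
        intro t
        simp only [Pi.add_apply, Pi.smul_apply, smul_eq_mul, sum_add_distrib, mul_sum]
      by_cases ht : Tight f x X
      · filter_upwards [self_mem_nhdsWithin] with t ht0 _ _
        have h2 := hu X ht h0.1 h0.2
        rw [e, show ∑ i ∈ X, x i = f X from ht]
        have : t * ∑ i ∈ X, u i < 0 := mul_neg_of_pos_of_neg ht0 h2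
        linarith
      · have hlt : ∑ i ∈ X, x i < f X := lt_of_le_of_ne (hx.2 X) ht
        have hc : Continuous fun t : ℝ => ∑ i ∈ X, x i + t * ∑ i ∈ X, u i := by fun_prop
        have h3 : ∀ᶠ t in nhds (0 : ℝ), ∑ i ∈ X, x i + t * ∑ i ∈ X, u i < f X := by
          refine hc.continuousAt.eventually (gt_mem_nhds ?_)
          simpa using hlt
        filter_upwards [nhdsWithin_le_nhds h3] with t ht3 _ _
        rw [e]
        exact ht3
    · filter_upwards with t ha hb
      exact absurd ⟨ha, hb⟩ h0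
  have h2 := (Filter.eventually_all.2 h1).and self_mem_nhdsWithin
  obtain ⟨t, ht1, ht2⟩ := h2.exists
  exact ⟨t, ht2, ht1⟩

section image

variable {k : ℕ} (Φ : (V → ℝ) →ₗ[ℝ] EuclideanSpace ℝ (Fin k)) (c : EuclideanSpace ℝ (Fin k))

/-- the image of the base polytope -/
def im (f : Finset V → ℝ) : Set (EuclideanSpace ℝ (Fin k)) :=
  (fun x => Φ x + c) '' basePolytope f

variable (hint : (interior (im Φ c f)).Nonempty)

include hint

theorem exists_diff (z : EuclideanSpace ℝ (Fin k)) : ∃ x ∈ basePolytope f, ∃ y ∈ basePolytope f,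
    ∃ t : ℝ, t ≠ 0 ∧ z = t • Φ (y - x) := by
  obtain ⟨p, hp⟩ := hint
  obtain ⟨t, ht, hpt⟩ := Pool.Agent.TH84.HC.small_int z hp
  obtain ⟨x, hx, hx2⟩ := interior_subset hp
  obtain ⟨y, hy, hy2⟩ := interior_subset hpt
  refine ⟨x, hx, y, hy, t⁻¹, inv_ne_zero ht.ne', ?_⟩
  simp only at hx2 hy2
  have h1 : Φ (y - x) = t • z := by
    rw [map_sub]
    have : Φ y - Φ x = (Φ y + c) - (Φ x + c) := by abel
    rw [this, hx2, hy2]
    abel
  rw [h1, smul_smul, inv_mul_cancel₀ ht.ne', one_smul]

omit [DecidableEq V] in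
theorem surj_sumZero : Function.Surjective (Φ ∘ₗ (sumZero V).subtype) := by
  classical
  intro z
  obtain ⟨x, hx, y, hy, t, -, hz⟩ := exists_diff Φ c hint z
  refine ⟨⟨t • (y - x), ?_⟩, ?_⟩
  · rw [mem_sumZero]
    simp only [Pi.smul_apply, Pi.sub_apply, smul_eq_mul, ← mul_sum, sum_sub_distrib]
    rw [hx.1, hy.1]
    ring
  · rw [hz]
    simp

theorem inj_sumZero (r : V) (hk : Fintype.card V = k + 1) :
    Function.Injective (Φ ∘ₗ (sumZero V).subtype) := by
  have h1 : Module.finrank ℝ (sumZero V) = Module.finrank ℝ (EuclideanSpace ℝ (Fin k)) := by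
    have := finrank_sumZero r
    rw [finrank_euclideanSpace, Fintype.card_fin]
    omega
  exact (LinearMap.injective_iff_surjective_of_finrank_eq_finrank h1).2 (surj_sumZero Φ c hint)

theorem conn_of_int (hk : Fintype.card V = k + 1) (X : Finset V) (h0 : X ≠ ∅) (h1 : X ≠ univ) :
    f univ < f X + f Xᶜ := by
  by_contra hcon
  push Not at hcon
  obtain ⟨i, hi⟩ := Finset.nonempty_iff_ne_empty.2 h0
  obtain ⟨j, hj⟩ : ∃ j, j ∉ X := by
    by_contra hc
    push Not at hc
    exact h1 (Finset.eq_univ_iff_forall.2 hc)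
  have key : ∀ x ∈ basePolytope f, ∑ l ∈ X, x l = f X := by
    intro x hx
    have h2 := hx.2 X
    have h3 := hx.2 Xᶜ
    have h4 := Finset.sum_add_sum_compl X x
    rw [hx.1] at h4
    linarith
  have hij : i ≠ j := by
    rintro rfl
    exact hj hi
  obtain ⟨x, hx, y, hy, t, ht, hz⟩ := exists_diff Φ c hint (Φ (ev i j))
  have hinj := inj_sumZero Φ c hint i hk
  have e1 : ev i j ∈ sumZero V := by
    rw [mem_sumZero, sum_ev]; simp
  have e2 : t • (y - x) ∈ sumZero V := by
    rw [mem_sumZero]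
    simp only [Pi.smul_apply, Pi.sub_apply, smul_eq_mul, ← mul_sum, sum_sub_distrib]
    rw [hx.1, hy.1]
    ring
  have e3 : (⟨ev i j, e1⟩ : sumZero V) = ⟨t • (y - x), e2⟩ := by
    apply hinj
    simp only [LinearMap.coe_comp, Function.comp_apply, Submodule.coe_subtype]
    rw [hz, map_smul]
  have e4 : ev i j = t • (y - x) := congrArg Subtype.val e3
  have e5 := sum_ev i j X
  rw [if_pos hi, if_neg hj, e4] at e5
  simp only [Pi.smul_apply, Pi.sub_apply, smul_eq_mul, ← mul_sum, sum_sub_distrib] at e5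
  rw [key x hx, key y hy] at e5
  norm_num at e5

theorem interior_of_strict {y : V → ℝ} (hy : ∑ i, y i = f univ) (hf0 : f ∅ = 0)
    (hs : ∀ X : Finset V, X ≠ ∅ → X ≠ univ → ∑ i ∈ X, y i < f X) :
    Φ y + c ∈ interior (im Φ c f) := by
  let O : Set (sumZero V) := {w | ∀ X : Finset V, X ≠ ∅ → X ≠ univ →
    ∑ i ∈ X, (y i + (w : V → ℝ) i) < f X}
  have hO : IsOpen O := by
    have : O = ⋂ X : Finset V, {w : sumZero V | X ≠ ∅ → X ≠ univ →
        ∑ i ∈ X, (y i + (w : V → ℝ) i) < f X} := by
      ext w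
      simp [O]
    rw [this]
    refine isOpen_iInter_of_finite fun X => ?_
    by_cases h0 : X ≠ ∅ ∧ X ≠ univ
    · have : {w : sumZero V | X ≠ ∅ → X ≠ univ → ∑ i ∈ X, (y i + (w : V → ℝ) i) < f X} =
          {w : sumZero V | ∑ i ∈ X, (y i + (w : V → ℝ) i) < f X} := by
        ext w
        simp only [Set.mem_setOf_eq]
        exact ⟨fun h => h h0.1 h0.2, fun h _ _ => h⟩
      rw [this]
      have hcont : Continuous fun w : sumZero V => ∑ i ∈ X, (y i + (w : V → ℝ) i) :=
        continuous_finset_sum _ fun i _ =>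
          continuous_const.add ((continuous_apply i).comp continuous_subtype_val)
      exact isOpen_lt hcont continuous_const
    · have : {w : sumZero V | X ≠ ∅ → X ≠ univ → ∑ i ∈ X, (y i + (w : V → ℝ) i) < f X} =
          Set.univ := by
        ext w
        simp only [Set.mem_setOf_eq, Set.mem_univ, iff_true]
        intro ha hb
        exact absurd ⟨ha, hb⟩ h0
      rw [this]
      exact isOpen_univ
  have hopen : IsOpenMap (Φ ∘ₗ (sumZero V).subtype) :=
    LinearMap.isOpenMap_of_finiteDimensional _ (surj_sumZero Φ c hint)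
  have h1 : IsOpen ((fun z => z + (Φ y + c)) '' ((Φ ∘ₗ (sumZero V).subtype) '' O)) :=
    (Homeomorph.addRight (Φ y + c)).isOpenMap _ (hopen _ hO)
  refine interior_maximal ?_ h1 ⟨0, ⟨0, ?_, by simp⟩, by simp⟩
  · rintro _ ⟨_, ⟨w, hw, rfl⟩, rfl⟩
    refine ⟨y + w, ⟨?_, fun X => ?_⟩, ?_⟩
    · simp only [Pi.add_apply, sum_add_distrib]
      rw [hy, mem_sumZero.1 w.2, add_zero]
    · by_cases h0 : X = ∅
      · subst h0
        simp [hf0]
      · by_cases h2 : X = univ
        · subst h2
          simp only [Pi.add_apply, sum_add_distrib]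
          rw [hy, mem_sumZero.1 w.2, add_zero]
        · exact (hw X h0 h2).le
    · simp only [LinearMap.coe_comp, Function.comp_apply, Submodule.coe_subtype, map_add]
      abel
  · intro X h2 h3
    simpa using hs X h2 h3

/-- over an extreme point of the image the tight sets separate all pairs -/
theorem sep_of_extreme (hf0 : f ∅ = 0) (r : V) (hk : Fintype.card V = k + 1) {x : V → ℝ}
    (hx : x ∈ basePolytope f) (hext : Φ x + c ∈ Set.extremePoints ℝ (im Φ c f)) (i : V)
    (h1 : Rel f x i r) (h2 : Rel f x r i) : i = r := by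
  by_contra hne
  have key : ∀ s : ℝ, (s = 1 ∨ s = -1) → ∃ t : ℝ, 0 < t ∧ ∀ t' : ℝ, 0 ≤ t' → t' ≤ t →
      x + (t' * s) • ev i r ∈ basePolytope f := by
    intro s _
    have h3 : ∀ X : Finset V, ∀ᶠ t in nhdsWithin (0 : ℝ) (Set.Ioi 0),
        ∑ l ∈ X, (x + (t * s) • ev i r) l ≤ f X := by
      intro X
      have e : ∀ t : ℝ, ∑ l ∈ X, (x + (t * s) • ev i r) l =
          ∑ l ∈ X, x l + (t * s) * ∑ l ∈ X, ev i r l := by
        intro t
        simp only [Pi.add_apply, Pi.smul_apply, smul_eq_mul, sum_add_distrib, mul_sum]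
      by_cases ht : Tight f x X
      · have h4 : i ∈ X ↔ r ∈ X := ⟨fun h => h2 X ht h, fun h => h1 X ht h⟩
        filter_upwards with t
        rw [e, sum_ev]
        have : ((if i ∈ X then (1 : ℝ) else 0) - if r ∈ X then 1 else 0) = 0 := by
          by_cases hi : i ∈ X
          · rw [if_pos hi, if_pos (h4.1 hi)]; ring
          · rw [if_neg hi, if_neg (fun h => hi (h4.2 h))]; ring
        rw [this, mul_zero, add_zero]
        exact hx.2 X
      · have hlt : ∑ i ∈ X, x i < f X := lt_of_le_of_ne (hx.2 X) ht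
        have hc : Continuous fun t : ℝ => ∑ l ∈ X, x l + (t * s) * ∑ l ∈ X, ev i r l := by
          fun_prop
        have h3 : ∀ᶠ t in nhds (0 : ℝ), ∑ l ∈ X, x l + (t * s) * ∑ l ∈ X, ev i r l < f X := by
          refine hc.continuousAt.eventually (gt_mem_nhds ?_)
          simpa using hlt
        filter_upwards [nhdsWithin_le_nhds h3] with t ht3
        rw [e]
        exact ht3.le
    obtain ⟨t, ht1, ht2⟩ := ((Filter.eventually_all.2 h3).and self_mem_nhdsWithin).exists
    have hmem : x + (t * s) • ev i r ∈ basePolytope f := by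
      refine ⟨?_, ht1⟩
      have h5 := sum_ev i r (univ : Finset V)
      simp only [mem_univ, if_true, sub_self] at h5
      simp only [Pi.add_apply, Pi.smul_apply, smul_eq_mul, sum_add_distrib, ← mul_sum]
      rw [h5, hx.1, mul_zero, add_zero]
    refine ⟨t, ht2, fun t' h0 hle => ?_⟩
    have ht2' : (0 : ℝ) < t := ht2
    have h6 := base_convex hx hmem (a := 1 - t' / t) (b := t' / t)
      (sub_nonneg.2 ((div_le_one ht2').2 hle)) (by positivity) (by ring)
    convert h6 using 1
    have : (t' / t) * (t * s) = t' * s := by field_simp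
    rw [smul_add, smul_smul, this, sub_smul, one_smul]
    abel
  obtain ⟨t1, ht1, h3⟩ := key 1 (Or.inl rfl)
  obtain ⟨t2, ht2, h4⟩ := key (-1) (Or.inr rfl)
  set t := min t1 t2 with ht
  have ht0 : 0 < t := lt_min ht1 ht2
  have h5 := h3 t ht0.le (min_le_left _ _)
  have h6 := h4 t ht0.le (min_le_right _ _)
  rw [mem_extremePoints] at hext
  have h7 := hext.2 (Φ (x + (t * 1) • ev i r) + c) ⟨_, h5, rfl⟩
    (Φ (x + (t * -1) • ev i r) + c) ⟨_, h6, rfl⟩ ⟨1/2, 1/2, by norm_num, by norm_num,
      by norm_num, by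
        simp only [map_add, map_smul]
        rw [← smul_add]
        have : Φ x + (t * 1) • Φ (ev i r) + c + (Φ x + (t * -1) • Φ (ev i r) + c) =
            (2 : ℝ) • (Φ x + c) := by
          rw [two_smul, mul_one, mul_neg_one, neg_smul]
          abel
        rw [this, smul_smul]
        norm_num⟩
  have h8 : (t * 1) • Φ (ev i r) = 0 := by
    have := h7.1
    rw [map_add, map_smul] at this
    have h9 : Φ x + (t * 1) • Φ (ev i r) + c = Φ x + c + (t * 1) • Φ (ev i r) := by abel
    rw [h9] at this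
    simpa using this
  rw [mul_one, smul_eq_zero] at h8
  have h9 := h8.resolve_left ht0.ne'
  have hinj := inj_sumZero Φ c hint r hk
  have e1 : ev i r ∈ sumZero V := by
    rw [mem_sumZero, sum_ev]; simp
  have e3 : (⟨ev i r, e1⟩ : sumZero V) = 0 := by
    apply hinj
    simp only [LinearMap.coe_comp, Function.comp_apply, Submodule.coe_subtype, map_zero]
    exact h9
  have e4 : ev i r = 0 := congrArg Subtype.val e3
  have e5 := congrFun e4 i
  simp [ev, hne] at e5

/-- **A full-dimensional affine image of a generalized permutohedron is covered by `2 ^ k`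
translates of its interior.** -/
theorem cov_image (hf : IsSubmodular f) (r : V) (hk : Fintype.card V = k + 1) :
    Pool.Agent.W677.Summand.Cov (im Φ c f) (2 ^ k) := by
  classical
  obtain ⟨U, hU0, hU⟩ := exists_dirs hf r
  let D : Finset (EuclideanSpace ℝ (Fin k)) := ((univ.erase r).powerset).image fun A => Φ (U A)
  have hD : D.card ≤ 2 ^ k := by
    refine Finset.card_image_le.trans ?_
    rw [Finset.card_powerset, Finset.card_erase_of_mem (mem_univ r), Finset.card_univ, hk]
    simp
  have hDn : D.Nonempty := ⟨Φ (U ∅), Finset.mem_image.2 ⟨∅, by simp, rfl⟩⟩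
  have hc : Convex ℝ (im Φ c f) := by
    have : im Φ c f = (fun z => z + c) '' (Φ '' basePolytope f) := by
      rw [Set.image_image]; rfl
    rw [this]
    have h1 := (base_convex (f := f)).linear_image Φ
    have h2 := h1.translate c
    have h3 : (fun z => z + c) '' (Φ '' basePolytope f) =
        (fun z => c + z) '' (Φ '' basePolytope f) := by
      simp only [add_comm]
    rw [h3]
    exact h2
  have hcomp : IsCompact (im Φ c f) := by
    refine base_compact.image ?_
    have := Φ.continuous_of_finiteDimensional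
    fun_prop
  have hil : ∀ x ∈ frontier (im Φ c f), ∃ u ∈ D, ∃ t : ℝ, 0 < t ∧
      x + t • u ∈ interior (im Φ c f) := by
    intro x hx
    obtain ⟨v, hv, hdom⟩ := Pool.Agent.TH84.HC.extreme_dom hc hcomp hint hx
    obtain ⟨y, hy, hyv⟩ := (Set.mem_of_mem_of_subset hv extremePoints_subset : v ∈ im Φ c f)
    simp only at hyv
    have hgood : Good f r y := good_of_sep hf hy (conn_of_int Φ c hint hk)
      (fun i h1 h2 => sep_of_extreme Φ c hint hf.1 r hk hy (by rw [hyv]; exact hv) i h1 h2)
    obtain ⟨A, hA, hAX⟩ := hU y hgood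
    obtain ⟨t, ht, hstrict⟩ := small_step hy hAX
    refine ⟨Φ (U A), Finset.mem_image.2 ⟨A, Finset.mem_powerset.2 hA, rfl⟩, hdom _ ⟨t, ht, ?_⟩⟩
    have h1 := interior_of_strict Φ c hint (y := y + t • U A) (by
      simp only [Pi.add_apply, Pi.smul_apply, smul_eq_mul, sum_add_distrib, ← mul_sum]
      rw [hU0, hy.1, mul_zero, add_zero]) hf.1 hstrict
    rw [map_add, map_smul] at h1
    rw [← hyv]
    have e : Φ y + c + t • Φ (U A) = Φ y + t • Φ (U A) + c := by abel
    rw [e]
    exact h1
  obtain ⟨T, hT, hcov⟩ := Pool.Agent.TH84.HC.cover_of_illum hc hcomp D hDn hil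
  refine ⟨T, ?_, hcov⟩
  have : T.card ≤ D.card := by exact_mod_cast hT
  exact this.trans hD

end image

end Pool.Agent.J4H94.GP
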