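import Pool.Agent.J4H94.GP.Geom

/-!
# Reduction to full-dimensional base polytopes

If `f X + f Xᶜ = f univ` for a proper set `X`, then two elements of the ground set can be identified
without changing the base polytope (up to an affine isomorphism).
-/

set_option autoImplicit false
set_option linter.unusedSectionVars false

namespace Pool.Agent.J4H94.GP

open Finset

section glue

variable {V : Type} [Fintype V] [DecidableEq V] (f : Finset V → ℝ) (X : Finset V) (a b : V)
  (hab : a ≠ b)

/-- identify `b` with `a` -/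
def prj (v : V) : {v : V // v ≠ b} := if h : v = b then ⟨a, hab⟩ else ⟨v, h⟩

theorem prj_b : prj a b hab b = ⟨a, hab⟩ := by simp [prj]

theorem prj_ne {v : V} (h : v ≠ b) : prj a b hab v = ⟨v, h⟩ := by simp [prj, h]

/-- the preimage of a set -/
def pre (Y : Finset {v : V // v ≠ b}) : Finset V := univ.filter fun v => prj a b hab v ∈ Y

theorem mem_pre {Y : Finset {v : V // v ≠ b}} {v : V} :
    v ∈ pre a b hab Y ↔ prj a b hab v ∈ Y := by simp [pre]

/-- the set function after the identification -/
def glue (Y : Finset {v : V // v ≠ b}) : ℝ := f (pre a b hab Y)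

theorem glue_sub (hf : IsSubmodular f) : IsSubmodular (glue f a b hab) := by
  refine ⟨?_, fun Y Z => ?_⟩
  · have : pre a b hab ∅ = ∅ := by ext v; simp [mem_pre]
    rw [glue, this, hf.1]
  · have h1 : pre a b hab (Y ∪ Z) = pre a b hab Y ∪ pre a b hab Z := by
      ext v; simp [mem_pre]
    have h2 : pre a b hab (Y ∩ Z) = pre a b hab Y ∩ pre a b hab Z := by
      ext v; simp [mem_pre]
    simp only [glue, h1, h2]
    exact hf.2 _ _

/-- the sums over the fibres -/
def agg (x : V → ℝ) (w : {v : V // v ≠ b}) : ℝ :=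
  if (w : V) = a then x a + x b else x w

theorem agg_sum (x : V → ℝ) (Y : Finset {v : V // v ≠ b}) :
    ∑ w ∈ Y, agg a b x w = ∑ v ∈ pre a b hab Y, x v := by
  have h1 : ∀ w : {v : V // v ≠ b}, agg a b x w =
      ∑ v ∈ univ.filter (fun v => prj a b hab v = w), x v := by
    intro w
    unfold agg
    split_ifs with h
    · have : (univ.filter fun v => prj a b hab v = w) = {a, b} := by
        ext v
        simp only [mem_filter, mem_univ, true_and, mem_insert, mem_singleton]
        by_cases hv : v = b
        · subst hv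
          rw [prj_b]
          simp only [or_true, iff_true]
          exact Subtype.ext h.symm
        · rw [prj_ne _ _ _ hv]
          constructor
          · intro h2; left; rw [← h, ← h2]
          · rintro (h2 | h2)
            · subst h2; exact Subtype.ext h.symm
            · exact absurd h2 hv
      rw [this, sum_pair hab]
    · have : (univ.filter fun v => prj a b hab v = w) = {(w : V)} := by
        ext v
        simp only [mem_filter, mem_univ, true_and, mem_singleton]
        by_cases hv : v = b
        · subst hv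
          rw [prj_b]
          constructor
          · intro h2; exact absurd (by rw [← h2]) h
          · intro h2; exact absurd h2.symm w.2
        · rw [prj_ne _ _ _ hv]
          constructor
          · intro h2; rw [← h2]
          · intro h2; exact Subtype.ext h2
      rw [this, sum_singleton]
  rw [Finset.sum_congr rfl fun w _ => h1 w]
  rw [← Finset.sum_fiberwise_of_maps_to (s := pre a b hab Y) (t := Y) (g := prj a b hab)
    (fun v hv => (mem_pre a b hab).1 hv)]
  refine Finset.sum_congr rfl fun w hw => ?_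
  refine Finset.sum_congr ?_ fun _ _ => rfl
  ext v
  simp only [mem_filter, mem_univ, true_and, mem_pre]
  constructor
  · intro h; exact ⟨by rw [h]; exact hw, h⟩
  · exact fun h => h.2

theorem agg_mem {x : V → ℝ} (hx : x ∈ basePolytope f) :
    agg a b x ∈ basePolytope (glue f a b hab) := by
  have h0 : pre a b hab univ = univ := by ext v; simp [mem_pre]
  refine ⟨?_, fun Y => ?_⟩
  · rw [agg_sum a b hab, glue, h0]; exact hx.1
  · rw [agg_sum a b hab, glue]; exact hx.2 _

/-- the linear part of the inverse map -/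
def lin : ({v : V // v ≠ b} → ℝ) →ₗ[ℝ] (V → ℝ) where
  toFun x v := if v = b then ∑ i ∈ X, x (prj a b hab i) else
    if v = a then - ∑ i ∈ X.erase a, x (prj a b hab i) else x (prj a b hab v)
  map_add' x y := by
    ext v
    simp only [Pi.add_apply]
    split_ifs <;> simp only [sum_add_distrib, neg_add]
  map_smul' c x := by
    ext v
    simp only [Pi.smul_apply, smul_eq_mul, RingHom.id_apply]
    split_ifs <;> simp only [mul_sum, mul_neg]

/-- the constant part of the inverse map -/
def cst (v : V) : ℝ := if v = b then - f X else if v = a then f X else 0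

variable (ha : a ∈ X) (hb : b ∉ X)

include ha in
theorem sigma_agg (x : {v : V // v ≠ b} → ℝ) :
    agg a b (lin X a b hab x + cst f X a b) = x := by
  ext w
  unfold agg
  split_ifs with h
  · simp only [Pi.add_apply, lin, cst, LinearMap.coe_mk, AddHom.coe_mk, if_neg hab, if_true]
    rw [← Finset.add_sum_erase X _ ha, prj_ne _ _ _ hab]
    have : w = ⟨a, hab⟩ := Subtype.ext h
    rw [this]
    ring
  · simp only [Pi.add_apply, lin, cst, LinearMap.coe_mk, AddHom.coe_mk, if_neg w.2, if_neg h]
    rw [prj_ne _ _ _ w.2, add_zero]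

include ha hb in
theorem sigma_sum_X (x : {v : V // v ≠ b} → ℝ) :
    ∑ v ∈ X, (lin X a b hab x + cst f X a b) v = f X := by
  rw [← Finset.add_sum_erase X _ ha]
  have h1 : ∀ v ∈ X.erase a, (lin X a b hab x + cst f X a b) v = x (prj a b hab v) := by
    intro v hv
    have hv1 : v ≠ a := (Finset.mem_erase.1 hv).1
    have hv2 : v ≠ b := fun h => hb (h ▸ (Finset.mem_erase.1 hv).2)
    simp only [Pi.add_apply, lin, cst, LinearMap.coe_mk, AddHom.coe_mk, if_neg hv2, if_neg hv1,
      add_zero]
  rw [Finset.sum_congr rfl h1]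
  simp only [Pi.add_apply, lin, cst, LinearMap.coe_mk, AddHom.coe_mk, if_neg hab, if_true]
  ring

include ha hb in
theorem sigma_mem (hf : IsSubmodular f) (hX : f X + f Xᶜ ≤ f univ)
    {x : {v : V // v ≠ b} → ℝ} (hx : x ∈ basePolytope (glue f a b hab)) :
    lin X a b hab x + cst f X a b ∈ basePolytope f := by
  set y := lin X a b hab x + cst f X a b with hy
  have hagg : agg a b y = x := sigma_agg f X a b hab ha x
  have hyX : ∑ v ∈ X, y v = f X := sigma_sum_X f X a b hab ha hb x
  have h0 : pre a b hab univ = univ := by ext v; simp [mem_pre]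
  have hyV : ∑ v, y v = f univ := by
    have h1 := agg_sum a b hab y univ
    rw [h0, hagg, hx.1, glue, h0] at h1
    exact h1.symm
  have hC : ∀ Z : Finset V, (a ∈ Z ↔ b ∈ Z) → ∑ v ∈ Z, y v ≤ f Z := by
    intro Z hZ
    have h1 := hx.2 (univ.filter fun w : {v : V // v ≠ b} => (w : V) ∈ Z)
    have h2 : pre a b hab (univ.filter fun w : {v : V // v ≠ b} => (w : V) ∈ Z) = Z := by
      ext v
      rw [mem_pre]
      simp only [mem_filter, mem_univ, true_and]
      by_cases hv : v = b
      · subst hv; rw [prj_b]; exact hZ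
      · rw [prj_ne _ _ _ hv]
    rw [← hagg, agg_sum a b hab, glue, h2] at h1
    exact h1
  have hyXc : ∑ v ∈ Xᶜ, y v = f Xᶜ := by
    have h1 := Finset.sum_add_sum_compl X y
    have h2 := hf.2 X Xᶜ
    rw [Finset.union_compl, Finset.inter_compl, hf.1] at h2
    linarith
  refine ⟨hyV, fun Y => ?_⟩
  have e1 : ∀ Z ⊆ X, ∑ v ∈ Z, y v ≤ f Z := by
    intro Z hZ
    by_cases haZ : a ∈ Z
    · have h1 := hC (Z ∪ Xᶜ) ⟨fun _ => mem_union_right _ (by simpa using hb),
        fun _ => mem_union_left _ haZ⟩
      have hd : Disjoint Z Xᶜ := Finset.disjoint_left.2 fun v hv hv2 =>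
        (Finset.mem_compl.1 hv2) (hZ hv)
      rw [Finset.sum_union hd, hyXc] at h1
      have h2 := hf.2 Z Xᶜ
      rw [Finset.disjoint_iff_inter_eq_empty.1 hd, hf.1] at h2
      linarith
    · exact hC Z ⟨fun h => absurd h haZ, fun h => absurd (hZ h) hb⟩
  have e2 : ∀ Z ⊆ Xᶜ, ∑ v ∈ Z, y v ≤ f Z := by
    intro Z hZ
    have haZ : a ∉ Z := fun h => (Finset.mem_compl.1 (hZ h)) ha
    by_cases hbZ : b ∈ Z
    · have h1 := hC (Z ∪ X) ⟨fun _ => mem_union_left _ hbZ, fun _ => mem_union_right _ ha⟩
      have hd : Disjoint Z X := Finset.disjoint_left.2 fun v hv hv2 =>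
        (Finset.mem_compl.1 (hZ hv)) hv2
      rw [Finset.sum_union hd, hyX] at h1
      have h2 := hf.2 Z X
      rw [Finset.disjoint_iff_inter_eq_empty.1 hd, hf.1] at h2
      linarith
    · exact hC Z ⟨fun h => absurd h haZ, fun h => absurd h hbZ⟩
  have h1 := e1 (Y ∩ X) Finset.inter_subset_right
  have h2 := e2 (Y ∩ Xᶜ) Finset.inter_subset_right
  have h3 : ∑ v ∈ Y, y v = ∑ v ∈ Y ∩ X, y v + ∑ v ∈ Y ∩ Xᶜ, y v := by
    rw [← Finset.sum_union]
    · rw [← Finset.inter_union_distrib_left, Finset.union_compl, Finset.inter_univ]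
    · refine Finset.disjoint_left.2 fun v hv hv2 => ?_
      exact (Finset.mem_compl.1 (Finset.mem_inter.1 hv2).2) (Finset.mem_inter.1 hv).2
  have h4 := hf.2 Y X
  have h5 := hf.2 (Y ∪ X) Xᶜ
  have h6 : (Y ∪ X) ∪ Xᶜ = univ := by
    ext v
    simp only [mem_union, mem_compl, mem_univ, iff_true]
    tauto
  have h7 : (Y ∪ X) ∩ Xᶜ = Y ∩ Xᶜ := by
    rw [Finset.union_inter_distrib_right, Finset.inter_compl, Finset.union_empty]
  rw [h6, h7] at h5
  linarith

theorem agg_sigma (hX : f X + f Xᶜ ≤ f univ) {x : V → ℝ} (hx : x ∈ basePolytope f) (ha : a ∈ X)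
    (hb : b ∉ X) : lin X a b hab (agg a b x) + cst f X a b = x := by
  have hxX : ∑ v ∈ X, x v = f X := by
    have h2 := hx.2 X
    have h3 := hx.2 Xᶜ
    have h4 := Finset.sum_add_sum_compl X x
    rw [hx.1] at h4
    linarith
  have h1 : ∀ v ∈ X.erase a, agg a b x (prj a b hab v) = x v := by
    intro v hv
    have hv1 : v ≠ a := (Finset.mem_erase.1 hv).1
    have hv2 : v ≠ b := fun h => hb (h ▸ (Finset.mem_erase.1 hv).2)
    rw [prj_ne _ _ _ hv2, agg, if_neg hv1]
  have h2 : ∑ i ∈ X.erase a, agg a b x (prj a b hab i) = f X - x a := by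
    rw [Finset.sum_congr rfl h1, ← hxX, ← Finset.add_sum_erase X x ha]
    ring
  ext v
  simp only [Pi.add_apply, lin, cst, LinearMap.coe_mk, AddHom.coe_mk]
  split_ifs with h3 h4
  · rw [← Finset.add_sum_erase X _ ha, h2, prj_ne _ _ _ hab, agg, if_pos rfl, h3]
    ring
  · rw [h2, h4]; ring
  · rw [prj_ne _ _ _ h3, agg, if_neg h4, add_zero]

end glue

theorem all_of_conn {V : Type*} [Fintype V] [DecidableEq V] {f : Finset V → ℝ}
    (hf : IsSubmodular f) (r : V) {x : V → ℝ} (hx : x ∈ basePolytope f)
    (hconn : ∀ X : Finset V, X ≠ ∅ → X ≠ univ → f univ < f X + f Xᶜ) :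
    ∀ i, ∃ k, i ∈ seq f x r k := by
  classical
  set N : Finset V := univ.filter fun i => ∃ k, i ∈ seq f x r k with hN
  have h1 : Tight f x N := by
    refine tight_of_down hf hx fun i j hij hj => ?_
    simp only [hN, mem_filter, mem_univ, true_and] at *
    obtain ⟨k, hk⟩ := hj
    exact ⟨2 * k + 1, seq_odd_down hij (seq_mono (by omega) hk)⟩
  have h2 : Tight f x Nᶜ := by
    refine tight_of_down hf hx fun i j hij hj => ?_
    rw [Finset.mem_compl] at *
    intro hi
    apply hj
    simp only [hN, mem_filter, mem_univ, true_and] at *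
    obtain ⟨k, hk⟩ := hi
    exact ⟨2 * k + 2, seq_even_up hij (seq_mono (by omega) hk)⟩
  have h3 : N ≠ ∅ := by
    intro hcon
    have : r ∈ N := by
      simp only [hN, mem_filter, mem_univ, true_and]
      exact ⟨0, by rw [seq]; simp⟩
    rw [hcon] at this
    exact absurd this (Finset.notMem_empty _)
  have h4 : N = univ := by
    by_contra hcon
    have h5 := hconn N h3 hcon
    have h6 := Finset.sum_add_sum_compl N x
    have h7 := hx.1
    unfold Tight at h1 h2
    linarith
  intro i
  have : i ∈ N := by rw [h4]; exact mem_univ i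
  simpa [hN] using this

section span

variable {V : Type*} [Fintype V] [DecidableEq V] {f : Finset V → ℝ}

/-- a small step in the direction `e_j - e_i` if `i ≤ j` -/
theorem step_rel {x : V → ℝ} (hx : x ∈ basePolytope f) {i j : V} (hij : Rel f x i j) :
    ev j i ∈ vectorSpan ℝ (basePolytope f) := by
  have h3 : ∀ X : Finset V, ∀ᶠ t in nhdsWithin (0 : ℝ) (Set.Ioi 0),
      ∑ l ∈ X, (x + t • ev j i) l ≤ f X := by
    intro X
    have e : ∀ t : ℝ, ∑ l ∈ X, (x + t • ev j i) l =
        ∑ l ∈ X, x l + t * ∑ l ∈ X, ev j i l := by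
      intro t
      simp only [Pi.add_apply, Pi.smul_apply, smul_eq_mul, sum_add_distrib, mul_sum]
    by_cases ht : Tight f x X
    · filter_upwards [self_mem_nhdsWithin] with t ht0
      rw [e, sum_ev]
      have : ((if j ∈ X then (1 : ℝ) else 0) - if i ∈ X then 1 else 0) ≤ 0 := by
        by_cases hj : j ∈ X
        · rw [if_pos hj, if_pos (hij X ht hj)]; norm_num
        · rw [if_neg hj]
          split_ifs <;> norm_num
      have h5 : ∑ l ∈ X, x l = f X := ht
      have h6 : t * ((if j ∈ X then (1 : ℝ) else 0) - if i ∈ X then 1 else 0) ≤ 0 :=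
        mul_nonpos_of_nonneg_of_nonpos (le_of_lt ht0) this
      linarith
    · have hlt : ∑ l ∈ X, x l < f X := lt_of_le_of_ne (hx.2 X) ht
      have hc : Continuous fun t : ℝ => ∑ l ∈ X, x l + t * ∑ l ∈ X, ev j i l := by
        fun_prop
      have h3 : ∀ᶠ t in nhds (0 : ℝ), ∑ l ∈ X, x l + t * ∑ l ∈ X, ev j i l < f X := by
        refine hc.continuousAt.eventually (gt_mem_nhds ?_)
        simpa using hlt
      filter_upwards [nhdsWithin_le_nhds h3] with t ht3
      rw [e]
      exact ht3.le
  obtain ⟨t, ht1, ht2⟩ := ((Filter.eventually_all.2 h3).and self_mem_nhdsWithin).exists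
  have hmem : x + t • ev j i ∈ basePolytope f := by
    refine ⟨?_, ht1⟩
    have h5 := sum_ev j i (univ : Finset V)
    simp only [mem_univ, if_true, sub_self] at h5
    simp only [Pi.add_apply, Pi.smul_apply, smul_eq_mul, sum_add_distrib, ← mul_sum]
    rw [h5, hx.1, mul_zero, add_zero]
  have h6 := vsub_mem_vectorSpan ℝ hmem hx
  rw [vsub_eq_sub, add_sub_cancel_left] at h6
  have h7 := Submodule.smul_mem _ t⁻¹ h6
  have ht0 : t ≠ 0 := ne_of_gt ht2
  rwa [smul_smul, inv_mul_cancel₀ ht0, one_smul] at h7

theorem ev_comm (i j : V) : ev i j = - ev j i := by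
  unfold ev; abel

theorem ev_add (i j k : V) : ev i j + ev j k = ev i k := by
  unfold ev; abel

theorem ev_mem (hf : IsSubmodular f) (r : V) {x : V → ℝ} (hx : x ∈ basePolytope f)
    (hconn : ∀ X : Finset V, X ≠ ∅ → X ≠ univ → f univ < f X + f Xᶜ) (i : V) :
    ev i r ∈ vectorSpan ℝ (basePolytope f) := by
  have key : ∀ k : ℕ, ∀ i ∈ seq f x r k, ev i r ∈ vectorSpan ℝ (basePolytope f) := by
    intro k
    induction k with
    | zero =>
      intro i hi
      rw [seq, Finset.mem_singleton] at hi
      subst hi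
      have : ev i i = 0 := by unfold ev; abel
      rw [this]
      exact Submodule.zero_mem _
    | succ k ih =>
      intro i hi
      rw [seq] at hi
      split_ifs at hi
      · obtain ⟨j, hj, hij⟩ := mem_dcl.1 hi
        have h1 := step_rel hx hij
        rw [ev_comm] at h1
        have h2 := Submodule.add_mem _ ((Submodule.neg_mem_iff _).1 h1) (ih j hj)
        rwa [ev_add] at h2
      · obtain ⟨j, hj, hij⟩ := mem_ucl.1 hi
        have h1 := step_rel hx hij
        have h2 := Submodule.add_mem _ h1 (ih j hj)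
        rwa [ev_add] at h2
  obtain ⟨k, hk⟩ := all_of_conn hf r hx hconn i
  exact key k i hk

theorem span_le : vectorSpan ℝ (basePolytope f) ≤ sumZero V := by
  rw [vectorSpan_def, Submodule.span_le]
  rintro _ ⟨x, hx, y, hy, rfl⟩
  rw [SetLike.mem_coe, mem_sumZero]
  simp only [vsub_eq_sub, Pi.sub_apply, sum_sub_distrib]
  rw [hx.1, hy.1, sub_self]

theorem finrank_of_conn (hf : IsSubmodular f) (r : V) {x : V → ℝ} (hx : x ∈ basePolytope f)
    (hconn : ∀ X : Finset V, X ≠ ∅ → X ≠ univ → f univ < f X + f Xᶜ) :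
    Module.finrank ℝ (vectorSpan ℝ (basePolytope f)) + 1 = Fintype.card V := by
  have : vectorSpan ℝ (basePolytope f) = sumZero V := by
    refine le_antisymm span_le fun w hw => ?_
    rw [mem_sumZero] at hw
    have h1 : w = ∑ i, w i • ev i r := by
      ext j
      have h2 : ∑ i, w i * (if j = r then (1 : ℝ) else 0) = 0 := by
        rw [← Finset.sum_mul, hw, zero_mul]
      simp only [ev, Finset.sum_apply, Pi.smul_apply, Pi.sub_apply, smul_eq_mul, mul_sub,
        sum_sub_distrib, Pi.single_apply, h2, sub_zero]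
      simp only [mul_ite, mul_one, mul_zero, Finset.sum_ite_eq, mem_univ, if_true]
    rw [h1]
    exact Submodule.sum_mem _ fun i _ => Submodule.smul_mem _ _ (ev_mem hf r hx hconn i)
  rw [this, finrank_sumZero r]

end span

theorem finrank_image_le {E F : Type*} [AddCommGroup E] [Module ℝ E] [AddCommGroup F] [Module ℝ F]
    [FiniteDimensional ℝ E] (Φ : E →ₗ[ℝ] F) (c : F) (s : Set E) :
    Module.finrank ℝ (vectorSpan ℝ ((fun x => Φ x + c) '' s)) ≤
      Module.finrank ℝ (vectorSpan ℝ s) := by
  have h1 : vectorSpan ℝ ((fun x => Φ x + c) '' s) = (vectorSpan ℝ s).map Φ := by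
    rw [vectorSpan_def, vectorSpan_def, Submodule.map_span]
    congr 1
    ext y
    constructor
    · rintro ⟨_, ⟨x, hx, rfl⟩, _, ⟨z, hz, rfl⟩, rfl⟩
      refine ⟨x - z, ⟨x, hx, z, hz, rfl⟩, ?_⟩
      simp only [vsub_eq_sub, map_sub]
      abel
    · rintro ⟨_, ⟨x, hx, z, hz, rfl⟩, rfl⟩
      refine ⟨_, ⟨x, hx, rfl⟩, _, ⟨z, hz, rfl⟩, ?_⟩
      simp only [vsub_eq_sub, map_sub]
      abel
  rw [h1]
  exact Submodule.finrank_map_le _ _

/-- **Reduction to full dimension.** An affine image, of the same dimension `k`, of a base polytope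
is an affine image of a base polytope on a ground set with `k + 1` elements. -/
theorem reduce {E : Type*} [AddCommGroup E] [Module ℝ E] (N : ℕ) :
    ∀ (V : Type) [Fintype V] [DecidableEq V] (f : Finset V → ℝ) (Φ : (V → ℝ) →ₗ[ℝ] E) (c : E)
      (k : ℕ), Fintype.card V = N → IsSubmodular f → (basePolytope f).Nonempty →
      Module.finrank ℝ (vectorSpan ℝ ((fun x => Φ x + c) '' basePolytope f)) = k →
      Module.finrank ℝ (vectorSpan ℝ (basePolytope f)) = k →
      ∃ (W : Type) (_ : Fintype W) (_ : DecidableEq W) (g : Finset W → ℝ)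
        (Ψ : (W → ℝ) →ₗ[ℝ] E) (d : E), Fintype.card W = k + 1 ∧ IsSubmodular g ∧
        (fun x => Φ x + c) '' basePolytope f = (fun x => Ψ x + d) '' basePolytope g := by
  induction N with
  | zero =>
    intro V _ _ f Φ c k hN hf hne h1 h2
    haveI : IsEmpty V := Fintype.card_eq_zero_iff.1 hN
    have hk : k = 0 := by
      rw [← h2]
      have : vectorSpan ℝ (basePolytope f) = ⊥ := by
        rw [eq_bot_iff]
        intro w _
        rw [Submodule.mem_bot]
        exact Subsingleton.elim _ _
      rw [this, finrank_bot]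
    subst hk
    refine ⟨Unit, inferInstance, inferInstance, fun _ => 0, 0, Φ 0 + c, by simp,
      ⟨rfl, fun _ _ => by simp⟩, ?_⟩
    obtain ⟨x, hx⟩ := hne
    ext y
    constructor
    · rintro ⟨z, _, rfl⟩
      refine ⟨0, ⟨by simp, fun X => by simp⟩, ?_⟩
      have : z = 0 := Subsingleton.elim _ _
      simp [this]
    · rintro ⟨z, _, rfl⟩
      refine ⟨x, hx, ?_⟩
      have : x = 0 := Subsingleton.elim _ _
      simp [this]
  | succ N ih =>
    intro V _ _ f Φ c k hN hf hne h1 h2
    by_cases hconn : ∀ X : Finset V, X ≠ ∅ → X ≠ univ → f univ < f X + f Xᶜ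
    · obtain ⟨x, hx⟩ := hne
      obtain ⟨r⟩ : Nonempty V := Fintype.card_pos_iff.1 (by omega)
      have h3 := finrank_of_conn hf r hx hconn
      exact ⟨V, inferInstance, inferInstance, f, Φ, c, by omega, hf, rfl⟩
    · push Not at hconn
      obtain ⟨X, hX0, hX1, hX⟩ := hconn
      obtain ⟨a, ha⟩ : X.Nonempty := by
        rw [Finset.nonempty_iff_ne_empty]
        exact Finset.nonempty_iff_ne_empty.1 (by simpa [Finset.nonempty_iff_ne_empty] using hX0)
      obtain ⟨b, hb⟩ : ∃ b, b ∉ X := by
        by_contra hc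
        push Not at hc
        exact hX1 (Finset.eq_univ_iff_forall.2 hc)
      have hab : a ≠ b := fun h => hb (h ▸ ha)
      have e1 : basePolytope f =
          (fun x => lin X a b hab x + cst f X a b) '' basePolytope (glue f a b hab) := by
        ext x
        constructor
        · intro hx
          exact ⟨agg a b x, agg_mem f a b hab hx, agg_sigma f X a b hab hX hx ha hb⟩
        · rintro ⟨y, hy, rfl⟩
          exact sigma_mem f X a b hab ha hb hf hX hy
      have e2 : (fun x => Φ x + c) '' basePolytope f =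
          (fun x => (Φ ∘ₗ lin X a b hab) x + (Φ (cst f X a b) + c)) ''
            basePolytope (glue f a b hab) := by
        rw [e1, Set.image_image]
        refine Set.image_congr fun x _ => ?_
        simp only [map_add, LinearMap.coe_comp, Function.comp_apply]
        abel
      obtain ⟨x, hx⟩ := hne
      have h3 : Module.finrank ℝ (vectorSpan ℝ (basePolytope (glue f a b hab))) ≤ k := by
        have e3 : basePolytope (glue f a b hab) = (fun x => (⟨⟨agg a b, fun x y => by
            ext w; unfold agg; simp only [Pi.add_apply]; split_ifs <;> ring⟩, fun c x => by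
            ext w; unfold agg; simp only [Pi.smul_apply, smul_eq_mul, RingHom.id_apply]
            split_ifs <;> ring⟩ : (V → ℝ) →ₗ[ℝ] ({v : V // v ≠ b} → ℝ)) x + 0) ''
            basePolytope f := by
          ext y
          constructor
          · intro hy
            refine ⟨_, sigma_mem f X a b hab ha hb hf hX hy, ?_⟩
            simp only [LinearMap.coe_mk, AddHom.coe_mk, add_zero]
            exact sigma_agg f X a b hab ha y
          · rintro ⟨z, hz, rfl⟩
            simp only [LinearMap.coe_mk, AddHom.coe_mk, add_zero]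
            exact agg_mem f a b hab hz
        rw [e3, ← h2]
        exact finrank_image_le _ _ _
      have h4 : k ≤ Module.finrank ℝ (vectorSpan ℝ (basePolytope (glue f a b hab))) := by
        rw [← h1, e2]
        exact finrank_image_le _ _ _
      obtain ⟨W, i1, i2, g, Ψ, d, hW, hg, hgd⟩ := ih {v : V // v ≠ b} (glue f a b hab)
        (Φ ∘ₗ lin X a b hab) (Φ (cst f X a b) + c) k (by
          have := Fintype.card_subtype_compl (fun v : V => v = b)
          rw [Fintype.card_subtype_eq] at this
          simp only [ne_eq]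
          omega) (glue_sub f a b hab hf) ⟨_, agg_mem f a b hab hx⟩ (by rw [← e2]; exact h1)
        (le_antisymm h3 h4)
      exact ⟨W, i1, i2, g, Ψ, d, hW, hg, by rw [e2]; exact hgd⟩

end Pool.Agent.J4H94.GP
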