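import Mathlib

/-!
# Tight sets of points of base polytopes, and the alternating search

`f` is a set function on a finite set `V`, `x` a point of the base polytope.  For a root `r` we
consider the sets `N 0 = {r}`, `N 1` = everything below `N 0`, `N 2` = everything above `N 1`,
`N 3` = everything below `N 2`, ...  in the preorder given by the tight sets of `x`.  We show that
these sets depend only on the set `A` of the elements which appear at an odd step.
-/

set_option autoImplicit false

namespace Pool.Agent.J4H94.GP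

open Finset

variable {V : Type*} [Fintype V] [DecidableEq V]

/-- `f` is submodular and vanishes at the empty set. -/
def IsSubmodular {V : Type*} [DecidableEq V] (f : Finset V → ℝ) : Prop :=
  f ∅ = 0 ∧ ∀ X Y : Finset V, f (X ∪ Y) + f (X ∩ Y) ≤ f X + f Y

/-- The base polytope of `f` (a generalized permutohedron if `f` is submodular). -/
def basePolytope {V : Type*} [Fintype V] (f : Finset V → ℝ) : Set (V → ℝ) :=
  {x | ∑ i, x i = f univ ∧ ∀ X : Finset V, ∑ i ∈ X, x i ≤ f X}

/-- `X` is tight at `x` -/
def Tight (f : Finset V → ℝ) (x : V → ℝ) (X : Finset V) : Prop := ∑ i ∈ X, x i = f X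

/-- `i ≤ j`: every tight set containing `j` contains `i` -/
def Rel (f : Finset V → ℝ) (x : V → ℝ) (i j : V) : Prop :=
  ∀ X : Finset V, Tight f x X → j ∈ X → i ∈ X

section basics

variable {f : Finset V → ℝ} {x : V → ℝ}

omit [Fintype V] in
theorem Rel.refl (i : V) : Rel f x i i := fun _ _ h => h

omit [Fintype V] in
theorem Rel.trans {i j k : V} (h1 : Rel f x i j) (h2 : Rel f x j k) : Rel f x i k :=
  fun X hX hk => h1 X hX (h2 X hX hk)

theorem tight_union_inter (hf : IsSubmodular f) (hx : x ∈ basePolytope f) {X Y : Finset V}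
    (hX : Tight f x X) (hY : Tight f x Y) : Tight f x (X ∪ Y) ∧ Tight f x (X ∩ Y) := by
  have h1 := hx.2 (X ∪ Y)
  have h2 := hx.2 (X ∩ Y)
  have h3 := hf.2 X Y
  have h4 : ∑ i ∈ X ∪ Y, x i + ∑ i ∈ X ∩ Y, x i = ∑ i ∈ X, x i + ∑ i ∈ Y, x i :=
    sum_union_inter
  unfold Tight at *
  constructor <;> linarith

theorem tight_empty (hf : IsSubmodular f) : Tight f x ∅ := by
  unfold Tight
  rw [sum_empty, hf.1]

theorem tight_univ (hx : x ∈ basePolytope f) : Tight f x univ := hx.1

/-- a set which is closed downwards is tight -/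
theorem tight_of_down (hf : IsSubmodular f) (hx : x ∈ basePolytope f) {X : Finset V}
    (h : ∀ i j, Rel f x i j → j ∈ X → i ∈ X) : Tight f x X := by
  classical
  have h1 : ∀ j ∈ X, ∀ i ∉ X, ∃ Z : Finset V, Tight f x Z ∧ j ∈ Z ∧ i ∉ Z := by
    intro j hj i hi
    by_contra hcon
    push Not at hcon
    exact hi (h i j (fun Z hZ hjZ => hcon Z hZ hjZ) hj)
  choose! Z hZ1 hZ2 hZ3 using h1
  let D : V → Finset V := fun j => Xᶜ.inf (fun i => Z j i)
  have hD : ∀ j ∈ X, Tight f x (D j) := by
    intro j hj
    refine Finset.inf_induction (p := fun Y => Tight f x Y) (tight_univ hx)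
      (fun a ha b hb => (tight_union_inter hf hx ha hb).2) ?_
    intro i hi
    exact hZ1 j hj i (by simpa using hi)
  have hU : Tight f x (X.sup D) := by
    refine Finset.sup_induction (p := fun Y => Tight f x Y) (tight_empty hf)
      (fun a ha b hb => (tight_union_inter hf hx ha hb).1) hD
  have e : X.sup D = X := by
    apply Finset.Subset.antisymm
    · intro i hi
      by_contra hiX
      obtain ⟨j, hj, hij⟩ := Finset.mem_sup.1 hi
      have : D j ≤ Z j i := Finset.inf_le (f := fun i => Z j i) (by simpa using hiX)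
      exact hZ3 j hj i hiX (this hij)
    · intro j hj
      refine Finset.mem_sup.2 ⟨j, hj, ?_⟩
      have : ({j} : Finset V) ≤ D j := by
        refine Finset.le_inf fun i hi => ?_
        intro a ha
        rw [Finset.mem_singleton] at ha
        subst ha
        exact hZ2 a hj i (by simpa using hi)
      exact this (Finset.mem_singleton_self j)
  rw [e] at hU
  exact hU

end basics

/-- everything below `N` -/
noncomputable def dcl (f : Finset V → ℝ) (x : V → ℝ) (N : Finset V) : Finset V := by
  classical
  exact univ.filter fun i => ∃ j ∈ N, Rel f x i j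

/-- everything above `N` -/
noncomputable def ucl (f : Finset V → ℝ) (x : V → ℝ) (N : Finset V) : Finset V := by
  classical
  exact univ.filter fun i => ∃ j ∈ N, Rel f x j i

/-- the alternating search from the root `r` -/
noncomputable def seq (f : Finset V → ℝ) (x : V → ℝ) (r : V) : ℕ → Finset V
  | 0 => {r}
  | k + 1 => if Even k then dcl f x (seq f x r k) else ucl f x (seq f x r k)

/-- the elements which appear at an odd step -/
noncomputable def signSet (f : Finset V → ℝ) (x : V → ℝ) (r : V) : Finset V := by
  classical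
  exact univ.filter fun m => ∃ k, m ∈ seq f x r (2 * k + 1) ∧ m ∉ seq f x r (2 * k)

section search

variable {f : Finset V → ℝ} {x : V → ℝ} {r : V}

theorem mem_dcl {N : Finset V} {i : V} : i ∈ dcl f x N ↔ ∃ j ∈ N, Rel f x i j := by
  simp [dcl]

theorem mem_ucl {N : Finset V} {i : V} : i ∈ ucl f x N ↔ ∃ j ∈ N, Rel f x j i := by
  simp [ucl]

theorem seq_odd (k : ℕ) : seq f x r (2 * k + 1) = dcl f x (seq f x r (2 * k)) := by
  rw [seq]; simp

theorem seq_even (k : ℕ) : seq f x r (2 * k + 2) = ucl f x (seq f x r (2 * k + 1)) := by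
  rw [seq]
  rw [if_neg]
  rw [Nat.not_even_iff_odd]
  exact ⟨k, rfl⟩

theorem seq_mono_succ (k : ℕ) : seq f x r k ⊆ seq f x r (k + 1) := by
  intro i hi
  rw [seq]
  split
  · exact mem_dcl.2 ⟨i, hi, Rel.refl i⟩
  · exact mem_ucl.2 ⟨i, hi, Rel.refl i⟩

theorem seq_mono {k l : ℕ} (h : k ≤ l) : seq f x r k ⊆ seq f x r l := by
  induction h with
  | refl => exact Finset.Subset.refl _
  | step _ ih => exact ih.trans (seq_mono_succ _)

theorem seq_odd_down {k : ℕ} {i j : V} (h : Rel f x i j) (hj : j ∈ seq f x r (2 * k + 1)) :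
    i ∈ seq f x r (2 * k + 1) := by
  rw [seq_odd, mem_dcl] at *
  obtain ⟨s, hs, hjs⟩ := hj
  exact ⟨s, hs, h.trans hjs⟩

theorem seq_even_up {k : ℕ} {i j : V} (h : Rel f x i j) (hj : i ∈ seq f x r (2 * k + 2)) :
    j ∈ seq f x r (2 * k + 2) := by
  rw [seq_even, mem_ucl] at *
  obtain ⟨s, hs, hjs⟩ := hj
  exact ⟨s, hs, hjs.trans h⟩

end search

/-- the hypotheses on a point: it is in the base polytope, the root is not equivalent to another
element, and the search reaches everything -/
structure Good (f : Finset V → ℝ) (r : V) (x : V → ℝ) : Prop where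
  mem : x ∈ basePolytope f
  sep : ∀ i, Rel f x i r → Rel f x r i → i = r
  all : ∀ i, ∃ k, i ∈ seq f x r k

/-- the step at which an element appears -/
noncomputable def step {f : Finset V → ℝ} {r : V} {x : V → ℝ} (h : Good f r x) (i : V) : ℕ := by
  classical
  exact Nat.find (h.all i)

section step

variable {f : Finset V → ℝ} {x : V → ℝ} {r : V} (h : Good f r x)

include h

theorem step_le_iff {i : V} {k : ℕ} : step h i ≤ k ↔ i ∈ seq f x r k := by
  classical
  unfold step
  constructor
  · intro hk
    exact seq_mono hk (Nat.find_spec (h.all i))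
  · intro hk
    exact Nat.find_min' _ hk

theorem step_root : step h r = 0 := by
  have : step h r ≤ 0 := (step_le_iff h).2 (by rw [seq]; simp)
  omega

theorem step_pos {i : V} (hi : i ≠ r) : 0 < step h i := by
  by_contra hcon
  have : step h i ≤ 0 := by omega
  rw [step_le_iff, seq, Finset.mem_singleton] at this
  exact hi this

/-- comparable elements below an odd element have the same step -/
theorem step_odd {i j : V} (hij : Rel f x i j) (hj : Odd (step h j)) : step h i = step h j := by
  obtain ⟨k, hk⟩ := hj
  have h1 : step h i ≤ 2 * k + 1 := by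
    rw [step_le_iff]
    exact seq_odd_down hij ((step_le_iff h).1 hk.le)
  by_contra hne
  have h2 : step h i ≤ 2 * k := by omega
  rcases Nat.eq_zero_or_pos k with h0 | h0
  · subst h0
    have h3 : i = r := by
      rw [step_le_iff] at h2
      simpa [seq] using h2
    subst h3
    have h4 : Rel f x j i := by
      have h5 : j ∈ seq f x i (2 * 0 + 1) := (step_le_iff h).1 hk.le
      rw [seq_odd, mem_dcl] at h5
      obtain ⟨s, hs, hjs⟩ := h5
      rw [mul_zero, seq, Finset.mem_singleton] at hs
      rwa [hs] at hjs
    have h6 := h.sep j h4 hij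
    rw [h6] at hne
    exact hne rfl
  · obtain ⟨l, rfl⟩ : ∃ l, k = l + 1 := ⟨k - 1, by omega⟩
    have h3 : step h j ≤ 2 * l + 2 := by
      rw [step_le_iff]
      exact seq_even_up hij ((step_le_iff h).1 (by omega))
    omega

/-- comparable elements above an even element have the same step -/
theorem step_even {i j : V} (hij : Rel f x i j) (hi : Even (step h i)) (hi0 : i ≠ r) :
    step h j = step h i := by
  obtain ⟨k, hk⟩ := hi
  have hp := step_pos h hi0
  obtain ⟨l, hl⟩ : ∃ l, step h i = 2 * l + 2 := ⟨k - 1, by omega⟩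
  have h1 : step h j ≤ 2 * l + 2 := by
    rw [step_le_iff]
    exact seq_even_up hij ((step_le_iff h).1 hl.le)
  by_contra hne
  have h2 : step h j ≤ 2 * l + 1 := by omega
  have h3 : step h i ≤ 2 * l + 1 := by
    rw [step_le_iff] at *
    exact seq_odd_down hij h2
  omega

theorem mem_signSet {i : V} : i ∈ signSet f x r ↔ Odd (step h i) := by
  unfold signSet
  simp only [mem_filter, mem_univ, true_and]
  constructor
  · rintro ⟨k, h1, h2⟩
    rw [← step_le_iff h] at h1 h2
    exact ⟨k, by omega⟩
  · rintro ⟨k, hk⟩
    refine ⟨k, ?_, ?_⟩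
    · rw [← step_le_iff h]; omega
    · rw [← step_le_iff h]; omega

end step

end Pool.Agent.J4H94.GP
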