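import Pool.Agent.J4H94.GP.Tight

/-!
# The steps of the alternating search depend only on the sign set; the illuminating directions
-/

set_option autoImplicit false

namespace Pool.Agent.J4H94.GP

open Finset

variable {V : Type*} [Fintype V] [DecidableEq V] {f : Finset V → ℝ} {r : V}

section tight

variable {x : V → ℝ} (hf : IsSubmodular f) (h : Good f r x)

include hf

theorem t1 (k : ℕ) : Tight f x (univ.filter fun i => step h i ≤ 2 * k + 1) := by
  refine tight_of_down hf h.mem fun i j hij hj => ?_
  simp only [mem_filter, mem_univ, true_and, step_le_iff] at *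
  exact seq_odd_down hij hj

theorem t2 (k : ℕ) : Tight f x (univ.filter fun i => Odd (step h i) ∧ 2 * k + 1 < step h i) := by
  refine tight_of_down hf h.mem fun i j hij hj => ?_
  simp only [mem_filter, mem_univ, true_and] at *
  rw [step_odd h hij hj.1]
  exact hj

theorem t3 (k : ℕ) : Tight f x (univ.filter fun i => step h i ≤ 2 * k ∨ Odd (step h i)) := by
  refine tight_of_down hf h.mem fun i j hij hj => ?_
  simp only [mem_filter, mem_univ, true_and] at *
  by_cases ho : Odd (step h j)
  · rw [step_odd h hij ho]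
    exact Or.inr ho
  · have h1 : step h j ≤ 2 * k := hj.resolve_right ho
    have h2 : step h i ≤ 2 * k + 1 := by
      rw [step_le_iff]
      exact seq_odd_down hij ((step_le_iff h).1 (by omega))
    by_cases h3 : step h i ≤ 2 * k
    · exact Or.inl h3
    · right
      exact ⟨k, by omega⟩

theorem t4 (k : ℕ) : Tight f x (univ.filter fun i => 2 * k + 2 < step h i) := by
  refine tight_of_down hf h.mem fun i j hij hj => ?_
  simp only [mem_filter, mem_univ, true_and] at *
  by_contra hcon
  have h1 : step h i ≤ 2 * k + 2 := by omega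
  have h2 : step h j ≤ 2 * k + 2 := by
    rw [step_le_iff] at *
    exact seq_even_up hij h1
  omega

theorem t5 (k : ℕ) :
    Tight f x (univ.filter fun i => ¬ (Even (step h i) ∧ 2 * k + 2 < step h i)) := by
  refine tight_of_down hf h.mem fun i j hij hj => ?_
  simp only [mem_filter, mem_univ, true_and] at *
  rintro ⟨h1, h2⟩
  apply hj
  have hir : i ≠ r := by
    rintro rfl
    rw [step_root] at h2
    omega
  rw [step_even h hij h1 hir]
  exact ⟨h1, h2⟩

theorem t6 (k : ℕ) :
    Tight f x (univ.filter fun i => ¬ (step h i ≤ 2 * k + 1 ∨ Even (step h i))) := by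
  refine tight_of_down hf h.mem fun i j hij hj => ?_
  simp only [mem_filter, mem_univ, true_and, not_or, Nat.not_even_iff_odd] at *
  rw [step_odd h hij hj.2]
  exact hj

end tight

section unique

variable {x y : V → ℝ} (hf : IsSubmodular f) (hx : Good f r x) (hy : Good f r y)
  (hs : ∀ i, Odd (step hx i) ↔ Odd (step hy i))

include hf hs

theorem tight_transfer_odd (k : ℕ) (ih : ∀ i, step hx i ≤ 2 * k ↔ step hy i ≤ 2 * k) :
    Tight f y (univ.filter fun i => step hx i ≤ 2 * k + 1) := by
  have e : (univ.filter fun i => step hx i ≤ 2 * k ∨ Odd (step hx i)) =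
      (univ.filter fun i => step hy i ≤ 2 * k ∨ Odd (step hy i)) := by
    ext i
    simp only [mem_filter, mem_univ, true_and]
    rw [ih i, hs i]
  have h1 := t1 hf hx k
  have h2 := t2 hf hx k
  have h3 := t3 hf hx k
  have h4 := t3 hf hy k
  rw [← e] at h4
  have hd : Disjoint (univ.filter fun i => step hx i ≤ 2 * k + 1)
      (univ.filter fun i => Odd (step hx i) ∧ 2 * k + 1 < step hx i) := by
    rw [Finset.disjoint_filter]
    intro i _ hi
    omega
  have hu : (univ.filter fun i => step hx i ≤ 2 * k ∨ Odd (step hx i)) =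
      (univ.filter fun i => step hx i ≤ 2 * k + 1) ∪
      (univ.filter fun i => Odd (step hx i) ∧ 2 * k + 1 < step hx i) := by
    ext i
    simp only [mem_filter, mem_univ, true_and, mem_union]
    constructor
    · rintro (h | h)
      · left; omega
      · by_cases h' : step hx i ≤ 2 * k + 1
        · exact Or.inl h'
        · exact Or.inr ⟨h, by omega⟩
    · rintro (h | h)
      · by_cases h' : step hx i ≤ 2 * k
        · exact Or.inl h'
        · right
          exact ⟨k, by omega⟩
      · exact Or.inr h.1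
  have l1 := hy.mem.2 (univ.filter fun i => step hx i ≤ 2 * k + 1)
  have l2 := hy.mem.2 (univ.filter fun i => Odd (step hx i) ∧ 2 * k + 1 < step hx i)
  unfold Tight at *
  rw [hu, sum_union hd] at h3 h4
  linarith

theorem tight_transfer_even (k : ℕ) (ih : ∀ i, step hx i ≤ 2 * k + 1 ↔ step hy i ≤ 2 * k + 1) :
    Tight f y (univ.filter fun i => 2 * k + 2 < step hx i) := by
  have hs' : ∀ i, Even (step hx i) ↔ Even (step hy i) := by
    intro i
    rw [← Nat.not_odd_iff_even, ← Nat.not_odd_iff_even, hs i]
  have e : (univ.filter fun i => ¬ (step hx i ≤ 2 * k + 1 ∨ Even (step hx i))) =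
      (univ.filter fun i => ¬ (step hy i ≤ 2 * k + 1 ∨ Even (step hy i))) := by
    ext i
    simp only [mem_filter, mem_univ, true_and]
    rw [ih i, hs' i]
  have h1 := t4 hf hx k
  have h2 := t5 hf hx k
  have h3 := t6 hf hx k
  have h4 := t6 hf hy k
  rw [← e] at h4
  have hx0 := hx.mem.1
  have hy0 := hy.mem.1
  have hint : (univ.filter fun i => 2 * k + 2 < step hx i) ∩
      (univ.filter fun i => ¬ (Even (step hx i) ∧ 2 * k + 2 < step hx i)) =
      (univ.filter fun i => ¬ (step hx i ≤ 2 * k + 1 ∨ Even (step hx i))) := by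
    ext i
    simp only [mem_filter, mem_univ, true_and, mem_inter, not_or, not_and, Nat.not_even_iff_odd]
    constructor
    · rintro ⟨h, h'⟩
      refine ⟨by omega, ?_⟩
      by_contra hcon
      rw [Nat.not_odd_iff_even] at hcon
      exact h' hcon h
    · rintro ⟨h, h'⟩
      obtain ⟨l, hl⟩ := h'
      refine ⟨by omega, fun he => ?_⟩
      exfalso
      rw [hl] at he
      exact Nat.not_even_iff_odd.2 ⟨l, rfl⟩ he
  have huni : (univ.filter fun i => 2 * k + 2 < step hx i) ∪
      (univ.filter fun i => ¬ (Even (step hx i) ∧ 2 * k + 2 < step hx i)) = univ := by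
    ext i
    simp only [mem_filter, mem_univ, true_and, mem_union, iff_true]
    by_cases h : 2 * k + 2 < step hx i
    · exact Or.inl h
    · right
      rintro ⟨_, h'⟩
      exact h h'
  have sx := sum_union_inter (s₁ := univ.filter fun i => 2 * k + 2 < step hx i)
    (s₂ := univ.filter fun i => ¬ (Even (step hx i) ∧ 2 * k + 2 < step hx i)) (f := x)
  have sy := sum_union_inter (s₁ := univ.filter fun i => 2 * k + 2 < step hx i)
    (s₂ := univ.filter fun i => ¬ (Even (step hx i) ∧ 2 * k + 2 < step hx i)) (f := y)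
  rw [huni, hint] at sx sy
  have l1 := hy.mem.2 (univ.filter fun i => 2 * k + 2 < step hx i)
  have l2 := hy.mem.2 (univ.filter fun i => ¬ (Even (step hx i) ∧ 2 * k + 2 < step hx i))
  unfold Tight at *
  linarith

theorem le_of_le_odd (k : ℕ) (ih : ∀ i, step hx i ≤ 2 * k ↔ step hy i ≤ 2 * k) (i : V)
    (hi : step hy i ≤ 2 * k + 1) : step hx i ≤ 2 * k + 1 := by
  have ht := tight_transfer_odd hf hx hy hs k ih
  rw [step_le_iff, seq_odd, mem_dcl] at hi
  obtain ⟨j, hj, hij⟩ := hi
  have h1 := (ih j).2 ((step_le_iff hy).2 hj)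
  have h2 := hij _ ht (by simp only [mem_filter, mem_univ, true_and]; omega)
  simpa using h2

theorem le_of_le_even (k : ℕ) (ih : ∀ i, step hx i ≤ 2 * k + 1 ↔ step hy i ≤ 2 * k + 1) (i : V)
    (hi : step hy i ≤ 2 * k + 2) : step hx i ≤ 2 * k + 2 := by
  have ht := tight_transfer_even hf hx hy hs k ih
  rw [step_le_iff, seq_even, mem_ucl] at hi
  obtain ⟨j, hj, hij⟩ := hi
  have h1 := (ih j).2 ((step_le_iff hy).2 hj)
  by_contra hcon
  have h2 := hij _ ht (by simp only [mem_filter, mem_univ, true_and]; omega)
  simp only [mem_filter, mem_univ, true_and] at h2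
  omega

/-- **the steps depend only on the sign set** -/
theorem step_unique (k : ℕ) : (∀ i, step hx i ≤ k ↔ step hy i ≤ k) := by
  have hs' : ∀ i, Odd (step hy i) ↔ Odd (step hx i) := fun i => (hs i).symm
  induction k with
  | zero =>
    intro i
    rw [step_le_iff, step_le_iff, seq, seq]
  | succ k ih =>
    intro i
    rcases Nat.even_or_odd' k with ⟨l, rfl | rfl⟩
    · exact ⟨le_of_le_odd hf hy hx hs' l (fun j => (ih j).symm) i,
        le_of_le_odd hf hx hy hs l ih i⟩
    · exact ⟨le_of_le_even hf hy hx hs' l (fun j => (ih j).symm) i,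
        le_of_le_even hf hx hy hs l ih i⟩

theorem step_eq (i : V) : step hx i = step hy i :=
  le_antisymm ((step_unique hf hx hy hs _ i).2 le_rfl) ((step_unique hf hx hy hs _ i).1 le_rfl)

end unique

/-! ### the direction of a step function -/

/-- the direction -/
noncomputable def dir (r : V) (s : V → ℕ) (i : V) : ℝ :=
  (-(1 / ((Fintype.card V : ℝ) + 1))) ^ s i -
    if i = r then ∑ j, (-(1 / ((Fintype.card V : ℝ) + 1))) ^ s j else 0

theorem dir_sum (s : V → ℕ) : ∑ i, dir r s i = 0 := by
  unfold dir
  rw [sum_sub_distrib, Finset.sum_ite_eq' univ r]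
  simp

/-- the sign of a sum of powers is the sign of the terms of least exponent -/
theorem sign_sum (s : V → ℕ) (Y : Finset V) (m : V) (hm : m ∈ Y) (hmin : ∀ i ∈ Y, s m ≤ s i) :
    0 < (-1) ^ s m * ∑ i ∈ Y, (-(1 / ((Fintype.card V : ℝ) + 1))) ^ s i := by
  set β : ℝ := 1 / ((Fintype.card V : ℝ) + 1) with hβ
  have hc : (0 : ℝ) < (Fintype.card V : ℝ) + 1 := by positivity
  have hβ0 : 0 < β := by positivity
  have hβ1 : β * (Fintype.card V : ℝ) < 1 := by
    rw [hβ, one_div, inv_mul_lt_iff₀ hc]
    linarith
  have hβ2 : β ≤ 1 := by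
    rw [hβ, div_le_one hc]
    have : (0 : ℝ) ≤ Fintype.card V := by positivity
    linarith
  have key : ∀ i ∈ Y.erase m, -(β ^ (s m + 1)) ≤ (-1) ^ s m * (-β) ^ s i := by
    intro i hi
    have h1 := hmin i (Finset.mem_of_mem_erase hi)
    rcases Nat.eq_or_lt_of_le h1 with h2 | h2
    · rw [← h2, ← mul_pow]
      have : (0 : ℝ) ≤ (-1 * -β) ^ s m := by
        apply pow_nonneg
        linarith
      have h3 : (0 : ℝ) ≤ β ^ (s m + 1) := by positivity
      linarith
    · have h3 : |(-1) ^ s m * (-β) ^ s i| ≤ β ^ (s m + 1) := by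
        rw [abs_mul, abs_pow, abs_pow, abs_neg, abs_neg, abs_one, one_pow, one_mul,
          abs_of_pos hβ0]
        exact pow_le_pow_of_le_one hβ0.le hβ2 h2
      exact (abs_le.1 h3).1
  rw [← Finset.add_sum_erase _ _ hm, mul_add, Finset.mul_sum]
  have h1 : (-1 : ℝ) ^ s m * (-β) ^ s m = β ^ s m := by
    rw [← mul_pow]
    congr 1
    ring
  rw [h1]
  have h2 : ∑ i ∈ Y.erase m, -(β ^ (s m + 1)) ≤ ∑ i ∈ Y.erase m, (-1) ^ s m * (-β) ^ s i :=
    Finset.sum_le_sum key
  rw [Finset.sum_const, nsmul_eq_mul] at h2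
  have h3 : ((Y.erase m).card : ℝ) ≤ Fintype.card V := by
    exact_mod_cast Finset.card_le_univ _
  have h4 : (0 : ℝ) < β ^ s m := by positivity
  have h5 : ((Y.erase m).card : ℝ) * β ^ (s m + 1) ≤ (Fintype.card V : ℝ) * β ^ (s m + 1) :=
    mul_le_mul_of_nonneg_right h3 (by positivity)
  have h6 : (Fintype.card V : ℝ) * β ^ (s m + 1) = (β * Fintype.card V) * β ^ s m := by
    rw [pow_succ]; ring
  have h7 : (β * Fintype.card V) * β ^ s m < 1 * β ^ s m := mul_lt_mul_of_pos_right hβ1 h4
  nlinarith

theorem sum_dir_of_notMem (s : V → ℕ) (X : Finset V) (hr : r ∉ X) :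
    ∑ i ∈ X, dir r s i = ∑ i ∈ X, (-(1 / ((Fintype.card V : ℝ) + 1))) ^ s i := by
  refine Finset.sum_congr rfl fun i hi => ?_
  unfold dir
  rw [if_neg, sub_zero]
  rintro rfl
  exact hr hi

/-- the direction of the steps illuminates the point -/
theorem dir_neg {x : V → ℝ} (h : Good f r x) (X : Finset V) (hX : Tight f x X) (h0 : X ≠ ∅)
    (h1 : X ≠ univ) : ∑ i ∈ X, dir r (step h) i < 0 := by
  by_cases hr : r ∈ X
  · have hrY : r ∉ Xᶜ := by simpa using hr
    have hne : (Xᶜ).Nonempty := by
      rw [Finset.nonempty_iff_ne_empty]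
      intro hcon
      exact h1 ((Finset.compl_eq_empty_iff _).1 hcon)
    have e : ∑ i ∈ X, dir r (step h) i = -∑ i ∈ Xᶜ, dir r (step h) i := by
      have := Finset.sum_add_sum_compl X (dir r (step h))
      rw [dir_sum] at this
      linarith
    rw [e, sum_dir_of_notMem _ _ hrY]
    obtain ⟨m, hm, hmin⟩ := Finset.exists_min_image Xᶜ (step h) hne
    have hs := sign_sum (step h) Xᶜ m hm hmin
    have hev : Even (step h m) := by
      rw [← Nat.not_odd_iff_even]
      rintro ⟨k, hk⟩
      have h2 : m ∈ seq f x r (2 * k + 1) := (step_le_iff h).1 hk.le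
      rw [seq_odd, mem_dcl] at h2
      obtain ⟨j, hj, hmj⟩ := h2
      have h3 := (step_le_iff h).2 hj
      have h4 : j ∈ Xᶜ := by
        rw [Finset.mem_compl]
        intro hjX
        exact (Finset.mem_compl.1 hm) (hmj X hX hjX)
      have := hmin j h4
      omega
    rw [hev.neg_one_pow, one_mul] at hs
    linarith
  · rw [sum_dir_of_notMem _ _ hr]
    obtain ⟨m, hm, hmin⟩ := Finset.exists_min_image X (step h) (Finset.nonempty_iff_ne_empty.2 h0)
    have hs := sign_sum (step h) X m hm hmin
    have hodd : Odd (step h m) := by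
      rw [← Nat.not_even_iff_odd]
      intro hev
      obtain ⟨k, hk⟩ := hev
      have hmr : m ≠ r := by
        rintro rfl
        exact hr hm
      have hp := step_pos h hmr
      obtain ⟨l, hl⟩ : ∃ l, step h m = 2 * l + 2 := ⟨k - 1, by omega⟩
      have h2 : m ∈ seq f x r (2 * l + 2) := (step_le_iff h).1 hl.le
      rw [seq_even, mem_ucl] at h2
      obtain ⟨j, hj, hmj⟩ := h2
      have h3 := (step_le_iff h).2 hj
      have h4 : j ∈ X := hmj X hX hm
      have := hmin j h4
      omega
    rw [hodd.neg_one_pow] at hs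
    linarith

/-- **One direction for every sign set.** -/
theorem exists_dirs (hf : IsSubmodular f) (r : V) : ∃ U : Finset V → V → ℝ,
    (∀ A, ∑ i, U A i = 0) ∧ ∀ x, Good f r x → ∃ A ⊆ univ.erase r,
      ∀ X, Tight f x X → X ≠ ∅ → X ≠ univ → ∑ i ∈ X, U A i < 0 := by
  classical
  refine ⟨fun A => if h : ∃ x, Good f r x ∧ signSet f x r = A then
    dir r (step (Classical.choose_spec h).1) else 0, ?_, ?_⟩
  · intro A
    dsimp only
    split_ifs with h
    · exact dir_sum _
    · simp
  · intro x hx
    refine ⟨signSet f x r, ?_, ?_⟩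
    · intro i hi
      rw [mem_signSet hx] at hi
      rw [Finset.mem_erase]
      refine ⟨?_, mem_univ _⟩
      rintro rfl
      rw [step_root] at hi
      exact absurd hi (by decide)
    · intro X hX h0 h1
      have h : ∃ y, Good f r y ∧ signSet f y r = signSet f x r := ⟨x, hx, rfl⟩
      simp only [dif_pos h]
      set y := Classical.choose h with hy
      have hy1 : Good f r y := (Classical.choose_spec h).1
      have hy2 : signSet f y r = signSet f x r := (Classical.choose_spec h).2
      have e : step (Classical.choose_spec h).1 = step hx := by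
        funext i
        refine step_eq hf _ hx (fun j => ?_) i
        rw [← mem_signSet, ← mem_signSet]
        exact Finset.ext_iff.1 hy2 j
      rw [e]
      exact dir_neg hx X hX h0 h1

/-- a point whose tight sets separate the root from the other elements is good, if `f` is
connected -/
theorem good_of_sep (hf : IsSubmodular f) {x : V → ℝ} (hx : x ∈ basePolytope f)
    (hconn : ∀ X : Finset V, X ≠ ∅ → X ≠ univ → f univ < f X + f Xᶜ)
    (hsep : ∀ i, Rel f x i r → Rel f x r i → i = r) : Good f r x := by
  classical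
  refine ⟨hx, hsep, ?_⟩
  set N : Finset V := univ.filter fun i => ∃ k, i ∈ seq f x r k with hN
  have h1 : Tight f x N := by
    refine tight_of_down hf hx fun i j hij hj => ?_
    simp only [hN, mem_filter, mem_univ, true_and] at *
    obtain ⟨k, hk⟩ := hj
    exact ⟨2 * k + 1, seq_odd_down hij (seq_mono (by omega) hk)⟩
  have h2 : Tight f x Nᶜ := by
    refine tight_of_down hf hx fun i j hij hj => ?_
    rw [Finset.mem_compl] at *
    intro hi
    apply hj
    simp only [hN, mem_filter, mem_univ, true_and] at *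
    obtain ⟨k, hk⟩ := hi
    exact ⟨2 * k + 2, seq_even_up hij (seq_mono (by omega) hk)⟩
  have h3 : N ≠ ∅ := by
    intro hcon
    have : r ∈ N := by
      simp only [hN, mem_filter, mem_univ, true_and]
      exact ⟨0, by rw [seq]; simp⟩
    rw [hcon] at this
    exact absurd this (Finset.notMem_empty _)
  have h4 : N = univ := by
    by_contra hcon
    have h5 := hconn N h3 hcon
    have h6 := Finset.sum_add_sum_compl N x
    have h7 := hx.1
    unfold Tight at h1 h2
    linarith
  intro i
  have : i ∈ N := by rw [h4]; exact mem_univ i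
  simpa [hN] using this

end Pool.Agent.J4H94.GP
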